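import Pool.Agent.Results.MP_e93a6a_ag.GateComplements

/-!
# Finite generation in bounded degrees: reduction to gate complements

`T : CycleCohomology` are the groups `H^i(X_et, ℤ^c(n))`, `n ≤ 0`, of arithmetic schemes `X` with
their usual formal properties (localisation, affine line).
-/

set_option autoImplicit false

open CategoryTheory AlgebraicGeometry Pool.Agent.TH90.Cub

namespace Pool.Agent.Results.MP_c1eb4d_ag.GateComplements

open Pool.Agent.Results.MP_e93a6a_ag.GateComplements

/-- The groups `H^i(X_et, ℤ^c(n))`, `i ≤ c`, are finitely generated for all arithmetic schemes. -/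
def FGAll (T : CycleCohomology) (n c : ℤ) : Prop :=
  ∀ (X : Scheme.{0}) (f : X ⟶ Spec (CommRingCat.of ℤ)), FT True ℤ f → ∀ i ≤ c,
    AddGroup.FG (T.H n i X)

/-- The groups `H^i(U_et, ℤ^c(n))`, `i ≤ c`, are finitely generated if `U` is the complement in an
affine space over `ℤ` of a finite union of hypersurfaces `x_a x_b = x_c`, `x_a + x_b = x_c`,
`x_a = 1`. -/
def FGGates (T : CycleCohomology) (n c : ℤ) : Prop :=
  ∀ (N : ℕ) (h : MvPolynomial (Fin N) ℤ), h ∈ Submonoid.closure {g | IsGate {1} g} →
    ∀ i ≤ c, AddGroup.FG (T.H n i (Complement h))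

theorem fixed (T : CycleCohomology) (n c : ℤ) (hn : n ≤ 0) (h : FGGates T n c) :
    FGAll T n c := by
  let P : ∀ X : Scheme.{0}, (X ⟶ Spec (CommRingCat.of ℤ)) → Prop :=
    fun X _ => ∀ i ≤ c, AddGroup.FG (T.H n i X)
  have hP : IsDevissage True ℤ P :=
    { iso := by
        intro X Y e g hg hX m hm
        obtain ⟨E⟩ := T.iso n hn m e g hg
        exact fg_iso E (hX m hm)
      empty := by
        intro X f hX m hm
        exact fg_subsingleton (T.empty n m X hn hX)
      closed := by
        intro Z X U f i j hf hi hj hr hX hU m hm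
        obtain ⟨bd, push, res, h1, h2⟩ := T.localization f i j hf hi hj hr n m hn
        exact fg_mid bd push h1 (hU (m - 1) (by omega)) (hX m hm)
      total := by
        intro Z X U f i j hf hi hj hr hZ hU m hm
        obtain ⟨bd, push, res, h1, h2⟩ := T.localization f i j hf hi hj hr n m hn
        exact fg_mid push res h2 (hZ m hm) (hU m hm) }
  intro X f hf i hi
  exact all_of_gates closure_one_int (Set.mem_singleton 1) hP (fun N h' hh' => h N h' hh')
    f hf i hi

theorem descend (T : CycleCohomology) (n c : ℤ) (hn : n ≤ 0) (h : FGAll T n c) :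
    FGAll T (n - 1) (c + 2) := by
  intro X f hf i hi
  have h1 : FT True ℤ ((𝔸(Fin 1; X) ↘ X) ≫ f) := by
    have := hf.lft
    have := hf.qc
    have := hf.sp trivial
    exact ⟨inferInstance, inferInstance, fun _ => inferInstance⟩
  obtain ⟨E⟩ := T.line n (i - 2) hn X f hf
  have h2 := fg_iso E (h _ _ h1 (i - 2) (by omega))
  have e2 : i - 2 + 2 = i := by ring
  rw [e2] at h2
  exact h2

theorem descend_iter (T : CycleCohomology) (h : FGAll T (-1) 3) (k : ℕ) :
    FGAll T (-1 - (k : ℤ)) (3 + 2 * k) := by
  induction k with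
  | zero => simpa using h
  | succ k ih =>
    have h1 := descend T _ _ (by omega) ih
    have e1 : (-1 - (k : ℤ) - 1) = -1 - ((k + 1 : ℕ) : ℤ) := by push_cast; ring
    have e2 : (3 + 2 * (k : ℤ) + 2) = 3 + 2 * ((k + 1 : ℕ) : ℤ) := by push_cast; ring
    rwa [e1, e2] at h1

/-- Let `H^i(X_et, ℤ^c(n))` have the formal properties above. (1) For all `n ≤ 0` and all bounds `c`,
these groups are finitely generated for all arithmetic schemes `X` and all `i ≤ c` if and only if
they are so for the complements `U` in affine spaces `𝔸^N_ℤ` of the unions of finitely many of the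
hypersurfaces `x_a x_b = x_c`, `x_a + x_b = x_c`, `x_a = 1`. (2) They are finitely generated for all
`n < 0`, all arithmetic schemes `X` and all `i ≤ -2 n + 1` if and only if they are so for `n = -1`,
`i ≤ 3` and these `U`. (3) In this case they are finitely generated for all proper regular
arithmetic schemes `X`, all `n < 0` and all `i ≤ -2 n + 1` (this is the question). -/
theorem result (T : CycleCohomology) :
    (∀ n ≤ 0, ∀ c : ℤ, FGAll T n c ↔ FGGates T n c) ∧
    ((∀ n < 0, FGAll T n (-2 * n + 1)) ↔ FGGates T (-1) 3) ∧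
    (FGGates T (-1) 3 →
      ∀ (X : Scheme.{0}) (f : X ⟶ Spec (CommRingCat.of ℤ)), IsProper f → RegularScheme X →
        ∀ n < 0, ∀ i ≤ -2 * n + 1, AddGroup.FG (T.H n i X)) := by
  have h0 : FGGates T (-1) 3 → ∀ n < 0, FGAll T n (-2 * n + 1) := by
    intro h n hn
    have h1 := descend_iter T (fixed T (-1) 3 (by norm_num) h) (-n - 1).toNat
    have e0 : (((-n - 1).toNat : ℕ) : ℤ) = -n - 1 := Int.toNat_of_nonneg (by omega)
    rw [e0] at h1
    have e1 : -1 - (-n - 1) = n := by ring
    have e2 : 3 + 2 * (-n - 1) = -2 * n + 1 := by ring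
    rwa [e1, e2] at h1
  refine ⟨fun n hn c => ⟨fun h N h' _ i hi => h _ (str ℤ _) (ft_gate h') i hi, fixed T n c hn⟩,
    ⟨fun h N h' _ i hi => h (-1) (by norm_num) _ (str ℤ _) (ft_gate h') i (by omega), h0⟩, ?_⟩
  intro h X f hf _ n hn i hi
  have hft : FT True ℤ f := ⟨inferInstance, inferInstance, fun _ => inferInstance⟩
  exact h0 h n hn X f hft i hi

end Pool.Agent.Results.MP_c1eb4d_ag.GateComplements
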